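import Pool.Agent.Y333.RP.Gap
import Pool.Agent.Results.MP_9b0fed_al.CoChordalBound

/-!
The co-chordal cover number of the graph `away G x y` is smaller than that of `G`.
-/

set_option autoImplicit false

namespace Pool.Agent.Y333.RP

open Pool.Agent.H677R3.Ab
open Pool.Agent.Results.MP_9b0fed_al.CoChordalBound

variable {n : ℕ}

/-- the vertices of the graph `away G x y` which may have edges -/
def Aw (G : SimpleGraph (Fin n)) (x y v : Fin n) : Prop :=
  v ≠ x ∧ v ≠ y ∧ ¬ G.Adj x v ∧ ¬ G.Adj y v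

/-- the restriction of a subgraph of `G` -/
def rst (G : SimpleGraph (Fin n)) (x y : Fin n) (H : G.Subgraph) : (away G x y).Subgraph where
  verts := {v | v ∈ H.verts ∧ Aw G x y v}
  Adj u v := H.Adj u v ∧ Aw G x y u ∧ Aw G x y v
  adj_sub := fun h => ⟨H.adj_sub h.1, h.2.1, h.2.2⟩
  edge_vert := fun h => ⟨H.edge_vert h.1, h.2.1⟩
  symm := ⟨fun _ _ h => ⟨h.1.symm, h.2.2, h.2.1⟩⟩

lemma rst_coChordal {G : SimpleGraph (Fin n)} {x y : Fin n} {H : G.Subgraph}
    (h : IsCoChordal H.coe) : IsCoChordal (rst G x y H).coe := by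
  intro m hm
  refine ⟨fun f => ?_⟩
  let e : (rst G x y H).coe ↪g H.coe :=
    { toFun := fun v => ⟨v.1, v.2.1⟩
      inj' := fun a b hab => Subtype.ext (congrArg (fun v : H.verts => v.1) hab)
      map_rel_iff' := by
        intro a b
        constructor
        · intro h1
          exact ⟨h1, a.2.2, b.2.2⟩
        · intro h1
          exact h1.1 }
  exact (h m hm).false ((SimpleGraph.Embedding.complEquiv e).comp f)

lemma no_edge {G : SimpleGraph (Fin n)} {x y u v : Fin n} {H : G.Subgraph}
    (h : IsCoChordal H.coe) (hxy : H.Adj x y) (huv : H.Adj u v) (hu : Aw G x y u)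
    (hv : Aw G x y v) : False := by
  have hx : x ∈ H.verts := H.edge_vert hxy
  have hy : y ∈ H.verts := H.edge_vert hxy.symm
  have hu' : u ∈ H.verts := H.edge_vert huv
  have hv' : v ∈ H.verts := H.edge_vert huv.symm
  have nxu : ¬ H.Adj x u := fun h => hu.2.2.1 (H.adj_sub h)
  have nyu : ¬ H.Adj y u := fun h => hu.2.2.2 (H.adj_sub h)
  have nxv : ¬ H.Adj x v := fun h => hv.2.2.1 (H.adj_sub h)
  have nyv : ¬ H.Adj y v := fun h => hv.2.2.2 (H.adj_sub h)
  have nux : ¬ H.Adj u x := fun h => nxu h.symm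
  have nuy : ¬ H.Adj u y := fun h => nyu h.symm
  have nvx : ¬ H.Adj v x := fun h => nxv h.symm
  have nvy : ¬ H.Adj v y := fun h => nyv h.symm
  have hne : x ≠ y := (H.adj_sub hxy).ne
  have hne2 : u ≠ v := (H.adj_sub huv).ne
  let g : Fin 4 → H.verts := ![⟨x, hx⟩, ⟨u, hu'⟩, ⟨y, hy⟩, ⟨v, hv'⟩]
  have hinj : Function.Injective g := by
    intro a b hab
    fin_cases a <;> fin_cases b <;> simp [g] at hab ⊢ <;>
      first
        | exact hne hab
        | exact hne hab.symm
        | exact hne2 hab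
        | exact hne2 hab.symm
        | exact hu.1 hab
        | exact hu.1 hab.symm
        | exact hu.2.1 hab
        | exact hu.2.1 hab.symm
        | exact hv.1 hab
        | exact hv.1 hab.symm
        | exact hv.2.1 hab
        | exact hv.2.1 hab.symm
  refine (h 4 le_rfl).false ⟨⟨g, hinj⟩, ?_⟩
  intro a b
  have c0 : ∀ a b : Fin 4, (SimpleGraph.cycleGraph 4).Adj a b ↔
      (a.1 + 1 = b.1 ∨ b.1 + 1 = a.1 ∨ (a.1 = 0 ∧ b.1 = 3) ∨ (a.1 = 3 ∧ b.1 = 0)) := by
    decide
  rw [c0]
  fin_cases a <;> fin_cases b <;>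
    simp [g, SimpleGraph.compl_adj, hxy, hxy.symm, huv, huv.symm, nxu, nyu, nxv, nyv,
      nux, nuy, nvx, nvy, hu.1, hu.2.1, hv.1, hv.2.1, hu.1.symm, hu.2.1.symm, hv.1.symm,
      hv.2.1.symm]

theorem coChord_away (G : SimpleGraph (Fin n)) {x y : Fin n} (hxy : G.Adj x y) :
    coChord (away G x y) + 1 ≤ coChord G := by
  obtain ⟨H, hH, hE⟩ : HasCoChordalCover G (coChord G) := Nat.sInf_mem (exists_cover G)
  have h0 : s(x, y) ∈ G.edgeSet := hxy
  rw [hE, Set.mem_iUnion] at h0
  obtain ⟨i0, hi0⟩ := h0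
  have hi0' : (H i0).Adj x y := hi0
  obtain ⟨s, hs⟩ : ∃ s, coChord G = s + 1 := ⟨coChord G - 1, by have := i0.2; omega⟩
  have key : ∀ t : ℕ, ∀ ht : coChord G = t + 1, HasCoChordalCover (away G x y) t := by
    intro t ht
    let e : Fin (t + 1) → Fin (coChord G) := Fin.cast ht.symm
    let j0 : Fin (t + 1) := Fin.cast ht i0
    refine ⟨fun j => rst G x y (H (e (j0.succAbove j))), fun j => rst_coChordal (hH _), ?_⟩
    ext z
    induction z using Sym2.ind with
    | _ u v =>
      rw [Set.mem_iUnion]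
      constructor
      · intro h
        obtain ⟨h1, h2, h3⟩ := (h : (away G x y).Adj u v)
        have h4 : s(u, v) ∈ G.edgeSet := h1
        rw [hE, Set.mem_iUnion] at h4
        obtain ⟨i, hi⟩ := h4
        have hi' : (H i).Adj u v := hi
        have hne : Fin.cast ht i ≠ j0 := by
          intro h5
          have h6 : i = i0 := by
            apply Fin.ext
            have := congrArg Fin.val h5
            simpa [j0] using this
          subst h6
          exact no_edge (hH i) hi0' hi' h2 h3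
        obtain ⟨j, hj⟩ := Fin.exists_succAbove_eq hne
        refine ⟨j, ?_⟩
        have h7 : e (j0.succAbove j) = i := by
          rw [hj]
          apply Fin.ext
          simp [e]
        show (rst G x y (H (e (j0.succAbove j)))).Adj u v
        rw [h7]
        exact ⟨hi', h2, h3⟩
      · rintro ⟨j, hj⟩
        exact (rst G x y (H (e (j0.succAbove j)))).adj_sub hj
  have h1 := Nat.sInf_le (s := {t | HasCoChordalCover (away G x y) t}) (key s hs)
  have h2 : coChord (away G x y) ≤ s := h1
  omega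

end Pool.Agent.Y333.RP
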