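import Pool.Agent.H803R3.Fin

/-!
The exact formula for the regularity of the powers of an edge ideal, with the second parameter
identified: it is the largest regularity of the edge ideals of the graphs `away G x y`.
-/

set_option autoImplicit false
set_option linter.unusedSectionVars false

namespace Pool.Agent.Y333.RP

open Finset Pool.Agent.H677R3 Pool.Agent.H677R3.Ab Pool.Agent.H803R3F

variable {n : ℕ} {k : Type*} [Field k]

/-- without edges the homology vanishes -/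
lemma hv_of_no_edge (H : SimpleGraph (Fin n)) (hH : ¬ ∃ u v, H.Adj u v) (U0 : Finset (Fin n))
    (j : ℕ) (hj : 1 ≤ j) : HV k (Ind H.Adj U0) j := by
  classical
  rcases U0.eq_empty_or_nonempty with h0 | ⟨w, hw⟩
  · intro a ha _
    refine ⟨fun _ => 0, fun F hF => absurd rfl hF, fun F => ?_⟩
    rw [bd_zero]
    by_contra hne
    obtain ⟨h1, h2⟩ := ha F (fun h => hne h.symm)
    have h3 : F = ∅ := by
      have := h1.1
      rw [h0] at this
      exact Finset.subset_empty.1 this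
    rw [h3] at h2
    simp at h2
    omega
  · apply HV.cone w
    rintro F ⟨h1, _⟩
    exact ⟨Finset.insert_subset hw h1, fun x _ y _ _ hxy => hH ⟨x, y, hxy⟩⟩

/-- the upper bound of the regularity by the vanishing of homology -/
lemma isReg_le (H : SimpleGraph (Fin n)) (σ s : ℕ) (hσ : 1 ≤ σ)
    (h : ∀ (U0 : Finset (Fin n)) (j : ℕ), σ ≤ j → HV k (Ind H.Adj U0) j)
    (hs : EdgeReg.IsReg (EdgeReg.edgeIdeal k H) s) : s ≤ σ := by
  by_contra hcon
  push Not at hcon
  obtain ⟨i, hi⟩ := hs.1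
  have h2 := ab_upper (k := k) H σ 1 hσ le_rfl h i s (by omega)
  rw [pow_one] at h2
  exact h2 hi

/-- if the homology does not vanish, the regularity is large -/
lemma exists_isReg (H : SimpleGraph (Fin n)) (U0 : Finset (Fin n)) (j : ℕ) (hj : 1 ≤ j)
    (h : ¬ HV k (Ind H.Adj U0) j) : ∃ s, EdgeReg.IsReg (EdgeReg.edgeIdeal k H) s ∧ j + 1 ≤ s := by
  have hE : ∃ u v, H.Adj u v := by
    by_contra hE
    exact h (hv_of_no_edge H hE U0 j hj)
  obtain ⟨u, v, huv⟩ := hE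
  have hgen1 := tor_gen (k := k) H huv 1
  rw [pow_one] at hgen1
  obtain ⟨s, hs, _⟩ := reg_exists (EdgeReg.edgeIdeal k H) (2 * 1 + (n + 2)) (by
    intro i e he
    have := triv_bound (k := k) H 1 le_rfl i e (by omega)
    rwa [pow_one] at this) ⟨0, 2 * 1, hgen1⟩
  have hs2 : 2 ≤ s := hs.2 ⟨0, hgen1⟩
  refine ⟨s, hs, ?_⟩
  by_contra hcon
  push Not at hcon
  refine h (hadj_of_reg H s (by omega) (fun i e he ht => ?_) U0 j (by omega))
  have := hs.2 ⟨i, ht⟩
  omega

/-- the exact formula, with the second parameter identified -/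
theorem formula' (k : Type*) [Field k] (G : SimpleGraph (Fin n)) (hG : ∃ u v, G.Adj u v) :
    ∃ r σ : ℕ, EdgeReg.IsReg (EdgeReg.edgeIdeal k G) r ∧
      IsGreatest ({1} ∪ {s | ∃ x y, G.Adj x y ∧ EdgeReg.IsReg (EdgeReg.edgeIdeal k (away G x y)) s}) σ ∧
      σ + 1 ≤ r ∧
      ∀ q, 1 ≤ q → EdgeReg.IsReg ((EdgeReg.edgeIdeal k G) ^ q) (max (r + q - 1) (2 * q - 1 + σ)) := by
  classical
  obtain ⟨u, v, huv⟩ := hG
  have hgen1 := tor_gen (k := k) G huv 1
  rw [pow_one] at hgen1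
  obtain ⟨r, hr, _⟩ := reg_exists (EdgeReg.edgeIdeal k G) (2 * 1 + (n + 2)) (by
    intro i e he
    have := triv_bound (k := k) G 1 le_rfl i e (by omega)
    rwa [pow_one] at this) ⟨0, 2 * 1, hgen1⟩
  have hr2 : 2 ≤ r := hr.2 ⟨0, hgen1⟩
  have hbd : ∀ i e, r < e → ¬ EdgeReg.TorNe (EdgeReg.edgeIdeal k G) i e := by
    intro i e he h
    have := hr.2 ⟨i, h⟩
    omega
  have hP : ∃ s : ℕ, 1 ≤ s ∧ ∀ x y, G.Adj x y → ∀ (U0 : Finset (Fin n)) (j : ℕ), s ≤ j →
      HV k (Ind (away G x y).Adj U0) j := by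
    refine ⟨r - 1, by omega, fun x y hxy U0 j hj => ?_⟩
    apply hv_away_of G hxy j
    intro R hR
    refine susp_lower G hxy R hR 1 le_rfl j fun i => ?_
    rw [pow_one]
    exact hbd i _ (by omega)
  set σ := Nat.find hP with hσ
  obtain ⟨hσ1, hσ2⟩ := Nat.find_spec hP
  have hmin : ∀ s, s < σ → 1 ≤ s → ¬ ∀ x y, G.Adj x y → ∀ (U0 : Finset (Fin n)) (j : ℕ), s ≤ j →
      HV k (Ind (away G x y).Adj U0) j := fun s hs h1 h2 => Nat.find_min hP hs ⟨h1, h2⟩
  have hσr : σ ≤ r - 1 := by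
    apply Nat.find_min'
    refine ⟨by omega, fun x y hxy U0 j hj => ?_⟩
    apply hv_away_of G hxy j
    intro R hR
    refine susp_lower G hxy R hR 1 le_rfl j fun i => ?_
    rw [pow_one]
    exact hbd i _ (by omega)
  have hadj := hadj_of_reg G r (by omega) hbd
  refine ⟨r, σ, hr, ⟨?_, ?_⟩, by omega, fun q hq => ?_⟩
  · by_cases h1 : σ = 1
    · left; exact h1
    · right
      have h2 := hmin (σ - 1) (by omega) (by omega)
      push Not at h2
      obtain ⟨x, y, hxy, U0, j, hj, hne⟩ := h2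
      obtain ⟨s, hs, hsj⟩ := exists_isReg (away G x y) U0 j (by omega) hne
      have h3 := isReg_le (away G x y) σ s hσ1 (hσ2 x y hxy) hs
      have h4 : s = σ := by omega
      exact ⟨x, y, hxy, h4 ▸ hs⟩
  · rintro s (hs | ⟨x, y, hxy, hs⟩)
    · have : s = 1 := hs
      omega
    · exact isReg_le (away G x y) σ s hσ1 (hσ2 x y hxy) hs
  obtain ⟨s, hs, hsB⟩ := reg_exists ((EdgeReg.edgeIdeal k G) ^ q) (max (r + q - 1) (2 * q - 1 + σ)) (by
    intro i e he
    exact Pool.Agent.H816R3.EdgeLow.hupper G (upperComb G) r σ q hσ1 hq hadj hσ2 i e he)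
    ⟨0, 2 * q, tor_gen G huv q⟩
  have hsbd : ∀ i e, s < e → ¬ EdgeReg.TorNe ((EdgeReg.edgeIdeal k G) ^ q) i e := by
    intro i e he h
    have := hs.2 ⟨i, h⟩
    omega
  have hA : r + q - 1 ≤ s := by
    by_contra hcon
    push Not at hcon
    have h1 : ∀ (U0 : Finset (Fin n)) (j : ℕ), r - 1 ≤ j → HV k (Ind G.Adj U0) j := by
      intro U0 j hj
      exact Pool.Agent.H816R3.EdgeLow.lowerA G q hq s hsbd U0 j (by omega) (by omega)
    obtain ⟨i, hi⟩ := hr.1
    have h2 := ab_upper (k := k) G (r - 1) 1 (by omega) le_rfl h1 i r (by omega)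
    rw [pow_one] at h2
    exact h2 hi
  have hB : 2 * q - 1 + σ ≤ s := by
    by_contra hcon
    push Not at hcon
    by_cases h1 : σ = 1
    · have := hs.2 ⟨0, tor_gen G huv q⟩
      omega
    · refine hmin (σ - 1) (by omega) (by omega) fun x y hxy U0 j hj => ?_
      apply hv_away_of G hxy j
      intro R hR
      exact susp_lower G hxy R hR q hq j fun i => hsbd i _ (by omega)
  have hsm : s = max (r + q - 1) (2 * q - 1 + σ) := le_antisymm hsB (max_le hA hB)
  rw [← hsm]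
  exact hs

/-- the exact stabilization index from the formula -/
lemma isLeast_stab {R : ℕ → ℕ → Prop} (hu : ∀ q s t, R q s → R q t → s = t) (r σ : ℕ) (hσ : 1 ≤ σ)
    (hr : σ + 1 ≤ r) (h : ∀ q, 1 ≤ q → R q (max (r + q - 1) (2 * q - 1 + σ))) :
    IsLeast {q₀ : ℕ | 1 ≤ q₀ ∧ ∃ a b : ℤ, ∀ q : ℕ, q₀ ≤ q → ∃ s : ℕ, R q s ∧ (s : ℤ) = a * q + b}
      (max 1 (r - σ)) := by
  refine ⟨⟨le_max_left _ _, 2, (σ : ℤ) - 1, fun q hq => ⟨_, h q (by omega), by omega⟩⟩, ?_⟩
  rintro q₀ ⟨h1, a, b, hab⟩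
  by_contra hcon
  push Not at hcon
  have hlt : q₀ < r - σ := by omega
  have val : ∀ q, q₀ ≤ q → ((max (r + q - 1) (2 * q - 1 + σ) : ℕ) : ℤ) = a * q + b := by
    intro q hq
    obtain ⟨s, hs, he⟩ := hab q hq
    rw [hu q _ _ (h q (by omega)) hs, he]
  have v1 := val r (by omega)
  have v2 := val (r + 1) (by omega)
  have v3 := val (r - σ - 1) (by omega)
  have e1 : max (r + r - 1) (2 * r - 1 + σ) = 2 * r - 1 + σ := by omega
  have e2 : max (r + (r + 1) - 1) (2 * (r + 1) - 1 + σ) = 2 * r + 1 + σ := by omega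
  have e3 : max (r + (r - σ - 1) - 1) (2 * (r - σ - 1) - 1 + σ) = 2 * r - σ - 2 := by omega
  rw [e1] at v1
  rw [e2] at v2
  rw [e3] at v3
  have f1 : ((2 * r - 1 + σ : ℕ) : ℤ) = 2 * r - 1 + σ := by omega
  have f2 : ((2 * r + 1 + σ : ℕ) : ℤ) = 2 * r + 1 + σ := by omega
  have f3 : ((2 * r - σ - 2 : ℕ) : ℤ) = 2 * r - σ - 2 := by omega
  have f4 : ((r - σ - 1 : ℕ) : ℤ) = r - σ - 1 := by omega
  rw [f1] at v1
  rw [f2] at v2
  rw [f3, f4] at v3
  push_cast at v2
  have ha : a = 2 := by linarith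
  subst ha
  linarith

end Pool.Agent.Y333.RP
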