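import Pool.Agent.Y333.RP.Ico

/-!
Gap-free graphs and the increments of the regularity.
-/

set_option autoImplicit false
set_option linter.unusedSectionVars false

namespace Pool.Agent.Y333.RP

open Finset Pool.Agent.H677R3 Pool.Agent.H677R3.Ab Pool.Agent.H803R3F

variable {n : ℕ}

/-- `G` is gap-free: two disjoint edges are joined by an edge -/
def GapFree (G : SimpleGraph (Fin n)) : Prop :=
  ∀ a b c d : Fin n, G.Adj a b → G.Adj c d → a ≠ c → a ≠ d → b ≠ c → b ≠ d →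
    G.Adj a c ∨ G.Adj a d ∨ G.Adj b c ∨ G.Adj b d

lemma away_edge_of_not_gapFree {G : SimpleGraph (Fin n)} (h : ¬ GapFree G) :
    ∃ x y, G.Adj x y ∧ ∃ u v, (away G x y).Adj u v := by
  unfold GapFree at h
  push Not at h
  obtain ⟨a, b, c, d, h1, h2, h3, h4, h5, h6, h7, h8, h9, h10⟩ := h
  exact ⟨a, b, h1, c, d, h2, ⟨h3.symm, h5.symm, h7, h9⟩, ⟨h4.symm, h6.symm, h8, h10⟩⟩

lemma not_away_edge_of_gapFree {G : SimpleGraph (Fin n)} (h : GapFree G) {x y : Fin n}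
    (hxy : G.Adj x y) : ¬ ∃ u v, (away G x y).Adj u v := by
  rintro ⟨u, v, h1, ⟨h2, h3, h4, h5⟩, ⟨h6, h7, h8, h9⟩⟩
  rcases h x y u v hxy h1 h2.symm h6.symm h3.symm h7.symm with h | h | h | h
  · exact h4 h
  · exact h8 h
  · exact h5 h
  · exact h9 h

lemma two_le_reg {k : Type*} [Field k] (H : SimpleGraph (Fin n)) (hE : ∃ u v, H.Adj u v) :
    ∃ s, EdgeReg.IsReg (EdgeReg.edgeIdeal k H) s ∧ 2 ≤ s := by
  obtain ⟨u, v, huv⟩ := hE
  have hgen1 := tor_gen (k := k) H huv 1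
  rw [pow_one] at hgen1
  obtain ⟨s, hs, _⟩ := reg_exists (EdgeReg.edgeIdeal k H) (2 * 1 + (n + 2)) (by
    intro i e he
    have := triv_bound (k := k) H 1 le_rfl i e (by omega)
    rwa [pow_one] at this) ⟨0, 2 * 1, hgen1⟩
  exact ⟨s, hs, hs.2 ⟨0, hgen1⟩⟩

/-- the second parameter is `1` exactly for the gap-free graphs -/
lemma sigma_eq_one_iff (k : Type*) [Field k] (G : SimpleGraph (Fin n)) (σ : ℕ)
    (h : IsGreatest ({1} ∪ {s | ∃ x y, G.Adj x y ∧
      EdgeReg.IsReg (EdgeReg.edgeIdeal k (away G x y)) s}) σ) : σ = 1 ↔ GapFree G := by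
  constructor
  · intro h1
    by_contra hg
    obtain ⟨x, y, hxy, hE⟩ := away_edge_of_not_gapFree hg
    obtain ⟨s, hs, h2⟩ := two_le_reg (k := k) (away G x y) hE
    have := h.2 (Or.inr ⟨x, y, hxy, hs⟩)
    omega
  · intro hg
    have h5 : 1 ≤ σ := h.2 (Or.inl rfl)
    rcases h.1 with h | ⟨x, y, hxy, hs⟩
    · exact h
    · have := isReg_le (k := k) (away G x y) 1 σ le_rfl
        (fun U0 j hj => hv_of_no_edge _ (not_away_edge_of_gapFree hg hxy) U0 j hj) hs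
      omega

end Pool.Agent.Y333.RP
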