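import Pool.Agent.Y333.RP.Exact

/-!
The complement of the graph of the icosahedron: the regularity of its edge ideal is 4, and the
second parameter of the exact formula is 1.
-/

set_option autoImplicit false
set_option linter.unusedSectionVars false

namespace Pool.Agent.Y333.RP

open Finset Pool.Agent.H677R3 Pool.Agent.H677R3.Ab Pool.Agent.H803R3F

/-- the neighbours of the vertices in the graph of the icosahedron -/
def icoNb : Fin 12 → List (Fin 12) :=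
  ![[1, 2, 3, 4, 5], [0, 2, 5, 6, 10], [0, 1, 3, 6, 7], [0, 2, 4, 7, 8], [0, 3, 5, 8, 9],
    [0, 1, 4, 9, 10], [1, 2, 7, 10, 11], [2, 3, 6, 8, 11], [3, 4, 7, 9, 11], [4, 5, 8, 10, 11],
    [1, 5, 6, 9, 11], [6, 7, 8, 9, 10]]

/-- the complement of the graph of the icosahedron -/
def icoC : SimpleGraph (Fin 12) where
  Adj u v := u ≠ v ∧ v ∉ icoNb u
  symm := ⟨by decide +kernel⟩
  loopless := ⟨fun _ h => h.1 rfl⟩

instance : DecidableRel icoC.Adj := fun u v => inferInstanceAs (Decidable (u ≠ v ∧ v ∉ icoNb u))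

/-- the oriented triangles of the icosahedron -/
def tris : List (Fin 12 × Fin 12 × Fin 12 × ℤ) :=
  [(0, 1, 2, 1), (0, 1, 5, -1), (0, 2, 3, 1), (0, 3, 4, 1), (0, 4, 5, 1), (1, 2, 6, -1),
   (1, 5, 10, 1), (1, 6, 10, -1), (2, 3, 7, -1), (2, 6, 7, 1), (3, 4, 8, -1), (3, 7, 8, 1),
   (4, 5, 9, -1), (4, 8, 9, 1), (5, 9, 10, 1), (6, 7, 11, -1), (6, 10, 11, 1), (7, 8, 11, -1),
   (8, 9, 11, -1), (9, 10, 11, -1)]

/-- the fundamental class -/
def fc (F : Finset (Fin 12)) : ℤ :=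
  (tris.map fun t => if F = {t.1, t.2.1, t.2.2.1} then t.2.2.2 else 0).sum

lemma fc_ne {F : Finset (Fin 12)} (h : fc F ≠ 0) : ∃ t ∈ tris, F = {t.1, t.2.1, t.2.2.1} := by
  by_contra hcon
  push Not at hcon
  apply h
  unfold fc
  apply List.sum_eq_zero
  intro x hx
  obtain ⟨t, ht, rfl⟩ := List.mem_map.1 hx
  rw [if_neg (hcon t ht)]

lemma tris_ok : ∀ t ∈ tris, ({t.1, t.2.1, t.2.2.1} : Finset (Fin 12)).card = 3 ∧
    ∀ x ∈ ({t.1, t.2.1, t.2.2.1} : Finset (Fin 12)),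
      ∀ y ∈ ({t.1, t.2.1, t.2.2.1} : Finset (Fin 12)), x ≠ y → ¬ icoC.Adj x y := by
  decide +kernel

lemma fc_cycle : ∀ x y : Fin 12, x ≠ y →
    ∑ j ∈ ({x, y} : Finset (Fin 12))ᶜ,
      (-1 : ℤ) ^ (({x, y} : Finset (Fin 12)).filter (· < j)).card * fc (insert j {x, y}) = 0 := by
  decide +kernel

lemma noK4 : ∀ a b : Fin 12, (a ≠ b ∧ ¬ icoC.Adj a b) →
    ∀ c, (a ≠ c ∧ b ≠ c ∧ ¬ icoC.Adj a c ∧ ¬ icoC.Adj b c) →
    ∀ d, ¬ (a ≠ d ∧ b ≠ d ∧ c ≠ d ∧ ¬ icoC.Adj a d ∧ ¬ icoC.Adj b d ∧ ¬ icoC.Adj c d) := by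
  decide +kernel

lemma gapFree : ∀ x y : Fin 12, icoC.Adj x y →
    ∀ u, (u ≠ x ∧ u ≠ y ∧ ¬ icoC.Adj x u ∧ ¬ icoC.Adj y u) →
    ∀ v, ¬ (icoC.Adj u v ∧ v ≠ x ∧ v ≠ y ∧ ¬ icoC.Adj x v ∧ ¬ icoC.Adj y v) := by
  decide +kernel

lemma away_no_edge (x y : Fin 12) (h : icoC.Adj x y) : ¬ ∃ u v, (away icoC x y).Adj u v := by
  rintro ⟨u, v, h1, h2, h3⟩
  exact gapFree x y h u h2 v ⟨h1, h3⟩

lemma card_le_three (F : Finset (Fin 12)) (h : Ind icoC.Adj univ F) : F.card ≤ 3 := by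
  by_contra hcon
  push Not at hcon
  let e := F.orderEmbOfFin rfl
  let i0 : Fin F.card := ⟨0, by omega⟩
  let i1 : Fin F.card := ⟨1, by omega⟩
  let i2 : Fin F.card := ⟨2, by omega⟩
  let i3 : Fin F.card := ⟨3, by omega⟩
  have hm : ∀ i, e i ∈ F := fun i => F.orderEmbOfFin_mem rfl i
  have hne : ∀ i j : Fin F.card, i ≠ j → e i ≠ e j := fun i j hij h => hij (e.injective h)
  have h01 : i0 ≠ i1 := by simp [i0, i1]
  have h02 : i0 ≠ i2 := by simp [i0, i2]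
  have h03 : i0 ≠ i3 := by simp [i0, i3]
  have h12 : i1 ≠ i2 := by simp [i1, i2]
  have h13 : i1 ≠ i3 := by simp [i1, i3]
  have h23 : i2 ≠ i3 := by simp [i2, i3]
  have hA : ∀ i j, i ≠ j → ¬ icoC.Adj (e i) (e j) :=
    fun i j hij => h.2 _ (hm i) _ (hm j) (hne i j hij)
  exact noK4 (e i0) (e i1) ⟨hne _ _ h01, hA _ _ h01⟩ (e i2)
    ⟨hne _ _ h02, hne _ _ h12, hA _ _ h02, hA _ _ h12⟩ (e i3)
    ⟨hne _ _ h03, hne _ _ h13, hne _ _ h23, hA _ _ h03, hA _ _ h13, hA _ _ h23⟩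

section field

variable (k : Type*) [Field k]

lemma hv_four (U0 : Finset (Fin 12)) (j : ℕ) (hj : 4 ≤ j) : HV k (Ind icoC.Adj U0) j := by
  intro a ha _
  refine ⟨fun _ => 0, fun F hF => absurd rfl hF, fun F => ?_⟩
  rw [bd_zero]
  by_contra hne
  obtain ⟨h1, h2⟩ := ha F (fun h => hne h.symm)
  have := card_le_three F ⟨Finset.subset_univ _, h1.2⟩
  omega

lemma sum_cast (T : Finset (Fin 12)) :
    bd (fun F => (fc F : k)) T =
      ((∑ j ∈ Tᶜ, (-1 : ℤ) ^ (T.filter (· < j)).card * fc (insert j T) : ℤ) : k) := by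
  unfold bd sg
  push_cast
  rfl

lemma not_hv_three : ¬ HV k (Ind icoC.Adj univ) 3 := by
  intro h
  obtain ⟨c, hc1, hc2⟩ := h (fun F => (fc F : k)) (by
    intro F hF
    have h1 : fc F ≠ 0 := fun h => hF (by simp [h])
    obtain ⟨t, ht, rfl⟩ := fc_ne h1
    obtain ⟨h2, h3⟩ := tris_ok t ht
    exact ⟨⟨Finset.subset_univ _, h3⟩, h2⟩) (by
    intro T
    rw [sum_cast]
    by_cases hT : T.card = 2
    · obtain ⟨x, y, hxy, rfl⟩ := Finset.card_eq_two.1 hT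
      rw [fc_cycle x y hxy, Int.cast_zero]
    · rw [Finset.sum_eq_zero, Int.cast_zero]
      intro j hj
      have : fc (insert j T) = 0 := by
        by_contra h1
        obtain ⟨t, ht, he⟩ := fc_ne h1
        have h2 := (tris_ok t ht).1
        rw [← he, Finset.card_insert_of_notMem (Finset.mem_compl.1 hj)] at h2
        omega
      rw [this, mul_zero])
  have hc0 : ∀ F, c F = 0 := by
    intro F
    by_contra hne
    obtain ⟨h1, h2⟩ := hc1 F hne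
    have := card_le_three F h1
    omega
  have h3 := hc2 {0, 1, 2}
  have h4 : fc {0, 1, 2} = 1 := by decide +kernel
  have h5 : c = fun _ => 0 := funext hc0
  rw [h5, bd_zero] at h3
  simp only [h4, Int.cast_one] at h3
  exact zero_ne_one h3

lemma reg_ico : EdgeReg.IsReg (EdgeReg.edgeIdeal k icoC) 4 := by
  obtain ⟨s, hs, h4⟩ := exists_isReg (k := k) icoC univ 3 (by omega) (not_hv_three k)
  have h5 := isReg_le (k := k) icoC 4 s (by omega) (fun U0 j hj => hv_four k U0 j hj) hs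
  have : s = 4 := by omega
  rwa [this] at hs

theorem ico_pow (q : ℕ) (hq : 1 ≤ q) :
    EdgeReg.IsReg ((EdgeReg.edgeIdeal k icoC) ^ q) (max (q + 3) (2 * q)) := by
  obtain ⟨r, σ, h1, h2, _, h4⟩ := formula' k icoC ⟨0, 6, by decide +kernel⟩
  have hr : r = 4 := h1.unique (reg_ico k)
  have hσ : σ = 1 := by
    have h5 : 1 ≤ σ := h2.2 (Or.inl rfl)
    rcases h2.1 with h | ⟨x, y, hxy, hs⟩
    · exact h
    · have := isReg_le (k := k) (away icoC x y) 1 σ le_rfl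
        (fun U0 j hj => hv_of_no_edge _ (away_no_edge x y hxy) U0 j hj) hs
      omega
  subst hr hσ
  have h5 := h4 q hq
  have h6 : max (4 + q - 1) (2 * q - 1 + 1) = max (q + 3) (2 * q) := by omega
  rwa [h6] at h5

end field

end Pool.Agent.Y333.RP
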